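import Pool.Agent.H43.PS.Targets2

/-! Row LSH of the board `psd_modules` (helper63): translation invariance of `PosDeg`. -/

namespace Pool.Agent.H63.PSD

open Matrix Finset H43.PS

/-- LSH -/
theorem LSH : T_LSH := by
  intro Θ _ _ N h D g hD f hf
  obtain ⟨F, hF, hfF⟩ := hf
  have key := hD (fun z => f (fun i => -g i + z i)) ⟨fun T z => F T (fun i => -g i + z i),
    fun T z z' hz => hF T _ _ fun i hi => by rw [hz i hi], fun z => hfF _⟩
  have e : ∑ z, D z * f (fun i => -g i + z i) ^ 2 =
      ∑ z, D (fun i => g i + z i) * f z ^ 2 := by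
    rw [← Equiv.sum_comp (Equiv.addLeft g)]
    refine Finset.sum_congr rfl fun z _ => ?_
    have h1 : (Equiv.addLeft g) z = fun i => g i + z i := by
      funext i
      simp
    rw [h1]
    have h2 : (fun i => -g i + (g i + z i)) = z := by
      funext i
      simp
    rw [h2]
  rw [e] at key
  exact key

end Pool.Agent.H63.PSD
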